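import Pool.Agent.Helper401_FP.Pcd

set_option autoImplicit false

open MeasureTheory Set ProbabilityTheory Filter
open scoped Topology

/-!
First-passage percolation on `Z^d`, `d ≥ 3`: geodesics exist for all laws, critical ones included,
whose distribution function grows doubly exponentially slowly at zero above the critical
probability (helper401).
-/

namespace Pool.Agent.Results.MP_716210_pr.NonExplosiveLaws

noncomputable section

/-- Vertices of `Z^d`. -/
abbrev V (d : ℕ) : Type := Fin d → ℤ

/-- Edges of `Z^d`: `(v, i)` is the edge joining `v` and `v + e_i`. -/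
abbrev Edge (d : ℕ) : Type := (Fin d → ℤ) × Fin d

/-! ### Bond percolation and its critical probability -/

/-- `x` and `y` are the end points of an edge which is open in the configuration `η`. -/
def Open {d : ℕ} (η : Edge d → Bool) (x y : V d) : Prop :=
  ∃ e : Edge d, η e = true ∧ ((x = e.1 ∧ y = e.1 + Pi.single e.2 (1 : ℤ)) ∨
    (y = e.1 ∧ x = e.1 + Pi.single e.2 (1 : ℤ)))

/-- The open cluster of the origin. -/
def cluster {d : ℕ} (η : Edge d → Bool) : Set (V d) := {y | Relation.ReflTransGen (Open η) 0 y}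

/-- The Bernoulli law with parameter `p`. -/
def ber (p : unitInterval) : Measure Bool :=
  ENNReal.ofReal (p : ℝ) • Measure.dirac true + ENNReal.ofReal (1 - (p : ℝ)) • Measure.dirac false

instance (p : unitInterval) : IsProbabilityMeasure (ber p) :=
  inferInstanceAs (IsProbabilityMeasure (Pool.Agent.W783.PC.bern p))

/-- The percolation probability: the probability that the cluster of the origin is infinite when
the edges are open independently with probability `p`. -/
def theta (d : ℕ) (p : unitInterval) : ℝ :=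
  (Measure.infinitePi (fun _ : Edge d => ber p)).real {η | (cluster η).Infinite}

/-- The critical probability `p_c(d)` of bond percolation on `Z^d`. -/
def pc (d : ℕ) : ℝ := sSup {x : ℝ | ∃ p : unitInterval, (p : ℝ) = x ∧ theta d p = 0}

/-! ### First-passage percolation -/

/-- `p 0, ..., p n` are the vertices and `e 0, ..., e (n - 1)` the edges of a lattice path. -/
def IsPath {d n : ℕ} (p : Fin (n + 1) → V d) (e : Fin n → Edge d) : Prop :=
  ∀ i : Fin n,
    (p (Fin.castSucc i) = (e i).1 ∧ p (Fin.succ i) = (e i).1 + Pi.single (e i).2 (1 : ℤ)) ∨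
    (p (Fin.succ i) = (e i).1 ∧ p (Fin.castSucc i) = (e i).1 + Pi.single (e i).2 (1 : ℤ))

/-- For the passage times `w` every pair of vertices is joined by a path of minimal total passage
time. -/
def Geodesics {d : ℕ} (w : Edge d → ℝ) : Prop :=
  ∀ x y : V d, ∃ (n : ℕ) (p : Fin (n + 1) → V d) (e : Fin n → Edge d),
    p 0 = x ∧ p (Fin.last n) = y ∧ IsPath p e ∧
    ∀ (m : ℕ) (q : Fin (m + 1) → V d) (f : Fin m → Edge d),
      q 0 = x → q (Fin.last m) = y → IsPath q f → ∑ i, w (e i) ≤ ∑ i, w (f i)

/-- Geodesics exist almost surely for independent passage times with law `μ`. -/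
def Exist (d : ℕ) (μ : Measure ℝ) : Prop :=
  ∀ (Ω : Type) [MeasurableSpace Ω] (P : Measure Ω), IsProbabilityMeasure P →
    ∀ (X : Edge d → Ω → ℝ), (∀ e, Measurable (X e)) → iIndepFun X P →
      (∀ e, Measure.map (X e) P = μ) → ∀ᵐ ω ∂P, Geodesics (fun e => X e ω)

lemma theta_eq (d : ℕ) (p : unitInterval) :
    theta d p = Pool.Agent.Y990.CB.th (Pool.Agent.Y990.CB.bondM d) p :=
  Pool.Agent.Helper401_FP.th_Opn p

lemma pc_eq (d : ℕ) : pc d = (Pool.Agent.Y990.CB.pc (Pool.Agent.Y990.CB.bondM d) : ℝ) := by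
  unfold pc Pool.Agent.Y990.CB.pc
  simp only [theta_eq]

/-- **A criterion for geodesics at the critical point.**  Let `d ≥ 3`, let `μ` be a law on
`[0, ∞)` with distribution function `F t = μ (Iic t)`, and let `κ > 1`.  If there are `t_j ≥ 0` with

`∑_j t_j = ∞` and `F (t_j) ≤ p_c(d) + exp (- κ ^ j)` for all `j`,

that is, if `∑_j F⁻¹(p_c(d) + exp (- κ ^ j)) = ∞`, then geodesics exist almost surely.

For `F 0 = p_c(d)` this holds for instance if `F t ≤ p_c(d) + exp (- exp (C / t))` for some `C > 0`
and all small `t > 0`. -/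
theorem result (d : ℕ) (hd : 3 ≤ d) (μ : Measure ℝ) (hμ : IsProbabilityMeasure μ)
    (hneg : μ (Iio (0 : ℝ)) = 0) (κ : ℝ) (hκ : 1 < κ) (t : ℕ → ℝ) (ht : ∀ j, 0 ≤ t j)
    (hdiv : ¬ Summable t)
    (htμ : ∀ j, μ (Iic (t j)) ≤ ENNReal.ofReal (pc d + Real.exp (-(κ ^ j)))) : Exist d μ := by
  obtain ⟨κ0, hκ0, h⟩ := Pool.Agent.Helper401_FP.crit hd
  intro Ω _ P hP X hX hi hlaw
  set p : unitInterval := ⟨(μ {0}).toReal, ENNReal.toReal_nonneg, by
    have := prob_le_one (μ := μ) (s := {0})
    exact ENNReal.toReal_le_of_le_ofReal zero_le_one (by simpa using this)⟩ with hp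
  have hp0 : μ {0} = ENNReal.ofReal p := (ENNReal.ofReal_toReal (measure_ne_top _ _)).symm
  have hmin : ∀ᵐ ω ∂P, ∀ x y : Pool.Agent.Y990.CB.Z d,
      ∃ w : (Pool.Agent.Helper401_FP.Lat d).Walk x y,
        ∀ w' : (Pool.Agent.Helper401_FP.Lat d).Walk x y,
        Pool.Agent.Helper401_FP.cost (Pool.Agent.Helper401_FP.wt fun e => X e ω) w ≤
          Pool.Agent.Helper401_FP.cost (Pool.Agent.Helper401_FP.wt fun e => X e ω) w' := by
    rcases lt_or_ge p (Pool.Agent.Y990.CB.pc (Pool.Agent.Y990.CB.bondM d)) with hlt | hge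
    · exact Pool.Agent.Helper401_FP.sub d μ p hneg hp0 hlt Ω P X hX hi hlaw
    · -- the mass of `(0, t_j]`
      have hge' : pc d ≤ (p : ℝ) := by rw [pc_eq]; exact hge
      have hIoc : ∀ j, μ (Ioc 0 (t j)) ≤ ENNReal.ofReal (Real.exp (-(κ ^ j))) := by
        intro j
        have h1 : ({0} : Set ℝ) ∪ Ioc 0 (t j) ⊆ Iic (t j) := by
          rintro x (rfl | hx)
          · exact ht j
          · exact hx.2
        have h2 : μ {0} + μ (Ioc 0 (t j)) ≤ ENNReal.ofReal (pc d + Real.exp (-(κ ^ j))) := by
          rw [← measure_union (by simp) measurableSet_Ioc]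
          exact (measure_mono h1).trans (htμ j)
        have h3 : ENNReal.ofReal (pc d + Real.exp (-(κ ^ j))) ≤
            μ {0} + ENNReal.ofReal (Real.exp (-(κ ^ j))) := by
          rw [hp0, ← ENNReal.ofReal_add p.2.1 (Real.exp_pos _).le]
          exact ENNReal.ofReal_le_ofReal (by linarith)
        exact (ENNReal.add_le_add_iff_left (measure_ne_top μ {0})).1 (h2.trans h3)
      -- a residue class along which the series diverges
      obtain ⟨c, hc⟩ : ∃ c : ℕ, κ0 ≤ κ ^ c :=
        (pow_unbounded_of_one_lt κ0 hκ).imp fun _ hh => hh.le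
      have hc1 : 1 ≤ c := by
        by_contra hcon
        have : c = 0 := by omega
        rw [this, pow_zero] at hc
        linarith
      obtain ⟨r, _, hr⟩ := Pool.Agent.Helper401_FP.residue ht hdiv hc1
      refine h μ p hneg hp0 hge (fun j => t (c * (j + 1) + r)) (fun j => ht _) ?_ ?_
        Ω P X hX hi hlaw
      · intro hs
        exact hr ((summable_nat_add_iff (f := fun j => t (c * j + r)) 1).1 hs)
      · intro j
        refine (hIoc _).trans (ENNReal.ofReal_le_ofReal (Real.exp_le_exp.2 (neg_le_neg ?_)))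
        calc κ0 ^ (j + 1) ≤ (κ ^ c) ^ (j + 1) := pow_le_pow_left₀ (by linarith) hc _
          _ = κ ^ (c * (j + 1)) := by rw [pow_mul]
          _ ≤ κ ^ (c * (j + 1) + r) := pow_le_pow_right₀ hκ.le (Nat.le_add_right _ _)
  filter_upwards [hmin] with ω hω x y
  exact Pool.Agent.Helper401_FP.fmt_min hω x y

end

end Pool.Agent.Results.MP_716210_pr.NonExplosiveLaws
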