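import Pool.Agent.Helper401_FP.Pcd

set_option autoImplicit false

open MeasureTheory Set ProbabilityTheory Filter
open scoped Topology

/-!
First-passage percolation on `Z^d`, `d ≥ 3`: geodesics exist for every law whose mass at zero
exceeds the critical probability of bond percolation (helper401).
-/

namespace Pool.Agent.Results.MP_716210_pr.SupercriticalLaws

noncomputable section

/-- Vertices of `Z^d`. -/
abbrev V (d : ℕ) : Type := Fin d → ℤ

/-- Edges of `Z^d`: `(v, i)` is the edge joining `v` and `v + e_i`. -/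
abbrev Edge (d : ℕ) : Type := (Fin d → ℤ) × Fin d

/-! ### Bond percolation and its critical probability -/

/-- `x` and `y` are the end points of an edge which is open in the configuration `η`. -/
def Open {d : ℕ} (η : Edge d → Bool) (x y : V d) : Prop :=
  ∃ e : Edge d, η e = true ∧ ((x = e.1 ∧ y = e.1 + Pi.single e.2 (1 : ℤ)) ∨
    (y = e.1 ∧ x = e.1 + Pi.single e.2 (1 : ℤ)))

/-- The open cluster of the origin. -/
def cluster {d : ℕ} (η : Edge d → Bool) : Set (V d) := {y | Relation.ReflTransGen (Open η) 0 y}

/-- The Bernoulli law with parameter `p`. -/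
def ber (p : unitInterval) : Measure Bool :=
  ENNReal.ofReal (p : ℝ) • Measure.dirac true + ENNReal.ofReal (1 - (p : ℝ)) • Measure.dirac false

instance (p : unitInterval) : IsProbabilityMeasure (ber p) :=
  inferInstanceAs (IsProbabilityMeasure (Pool.Agent.W783.PC.bern p))

/-- The percolation probability: the probability that the cluster of the origin is infinite when
the edges are open independently with probability `p`. -/
def theta (d : ℕ) (p : unitInterval) : ℝ :=
  (Measure.infinitePi (fun _ : Edge d => ber p)).real {η | (cluster η).Infinite}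

/-- The critical probability `p_c(d)` of bond percolation on `Z^d`. -/
def pc (d : ℕ) : ℝ := sSup {x : ℝ | ∃ p : unitInterval, (p : ℝ) = x ∧ theta d p = 0}

/-! ### First-passage percolation -/

/-- `p 0, ..., p n` are the vertices and `e 0, ..., e (n - 1)` the edges of a lattice path. -/
def IsPath {d n : ℕ} (p : Fin (n + 1) → V d) (e : Fin n → Edge d) : Prop :=
  ∀ i : Fin n,
    (p (Fin.castSucc i) = (e i).1 ∧ p (Fin.succ i) = (e i).1 + Pi.single (e i).2 (1 : ℤ)) ∨
    (p (Fin.succ i) = (e i).1 ∧ p (Fin.castSucc i) = (e i).1 + Pi.single (e i).2 (1 : ℤ))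

/-- For the passage times `w` every pair of vertices is joined by a path of minimal total passage
time. -/
def Geodesics {d : ℕ} (w : Edge d → ℝ) : Prop :=
  ∀ x y : V d, ∃ (n : ℕ) (p : Fin (n + 1) → V d) (e : Fin n → Edge d),
    p 0 = x ∧ p (Fin.last n) = y ∧ IsPath p e ∧
    ∀ (m : ℕ) (q : Fin (m + 1) → V d) (f : Fin m → Edge d),
      q 0 = x → q (Fin.last m) = y → IsPath q f → ∑ i, w (e i) ≤ ∑ i, w (f i)

/-- Geodesics exist almost surely for independent passage times with law `μ`. -/
def Exist (d : ℕ) (μ : Measure ℝ) : Prop :=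
  ∀ (Ω : Type) [MeasurableSpace Ω] (P : Measure Ω), IsProbabilityMeasure P →
    ∀ (X : Edge d → Ω → ℝ), (∀ e, Measurable (X e)) → iIndepFun X P →
      (∀ e, Measure.map (X e) P = μ) → ∀ᵐ ω ∂P, Geodesics (fun e => X e ω)

lemma theta_eq (d : ℕ) (p : unitInterval) :
    theta d p = Pool.Agent.Y990.CB.th (Pool.Agent.Y990.CB.bondM d) p :=
  Pool.Agent.Helper401_FP.th_Opn p

lemma pc_eq (d : ℕ) : pc d = (Pool.Agent.Y990.CB.pc (Pool.Agent.Y990.CB.bondM d) : ℝ) := by
  unfold pc Pool.Agent.Y990.CB.pc
  simp only [theta_eq]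

/-- **Geodesics exist above the critical point.**  For every `d ≥ 3` and every law `μ` on
`[0, ∞)` with `μ {0} > p_c(d)`, geodesics exist almost surely in first-passage percolation on
`Z^d` with independent passage times of law `μ`.  There is no further assumption on `μ`. -/
theorem result (d : ℕ) (hd : 3 ≤ d) (μ : Measure ℝ) (hμ : IsProbabilityMeasure μ)
    (hneg : μ (Iio (0 : ℝ)) = 0) (h : ENNReal.ofReal (pc d) < μ {0}) : Exist d μ := by
  intro Ω _ P hP X hX hi hlaw
  set p : unitInterval := ⟨(μ {0}).toReal, ENNReal.toReal_nonneg, by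
    have := prob_le_one (μ := μ) (s := {0})
    exact ENNReal.toReal_le_of_le_ofReal zero_le_one (by simpa using this)⟩ with hp
  have hp0 : μ {0} = ENNReal.ofReal p := (ENNReal.ofReal_toReal (measure_ne_top _ _)).symm
  have hlt : Pool.Agent.Y990.CB.pc (Pool.Agent.Y990.CB.bondM d) < p := by
    rw [hp0, pc_eq] at h
    exact (ENNReal.ofReal_lt_ofReal_iff_of_nonneg
      (Pool.Agent.Y990.CB.pc (Pool.Agent.Y990.CB.bondM d)).2.1).1 h
  filter_upwards [Pool.Agent.Helper401_FP.sup hd μ p hneg hp0 hlt Ω P X hX hi hlaw] with ω hω x y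
  exact Pool.Agent.Helper401_FP.fmt_min hω x y

end

end Pool.Agent.Results.MP_716210_pr.SupercriticalLaws
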